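import Pool.Agent.ZGO.StmtsB
import Mathlib

/-!
# Row NLT of table zgo: symbols of torsion elements are nilpotent
-/

set_option autoImplicit false

open scoped BigOperators

namespace Pool.Agent.ZGO.H67

variable {P : Type} [Group P] {X : Type} [AddCommGroup X]

theorem mulA {Y : Type} [AddCommGroup Y] (f g : AddMonoid.End Y) (x : Y) :
    (f * g) x = f (g x) := rfl

theorem subA (f : AddMonoid.End X) (x : X) : (f - 1) x = f x - x := rfl

theorem pow_sub (p : ℕ) (hp : p.Prime) (hX : ∀ x : X, p • x = 0) (ρ : P →* AddMonoid.End X)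
    (g : P) (n : ℕ) : (ρ g - 1) ^ (p ^ n) = ρ (g ^ (p ^ n)) - 1 := by
  obtain ⟨r, hr⟩ := Commute.exists_add_pow_prime_pow_eq hp (Commute.one_right (ρ g - 1)) n
  have hp0 : (p : AddMonoid.End X) = 0 := by
    ext x
    have := hX x
    simpa using this
  rw [sub_add_cancel, ← map_pow, hp0, zero_mul, zero_mul, zero_mul, add_zero, one_pow] at hr
  rw [hr, add_sub_cancel_right]

theorem iter {τ : X →+ X} {ρ : P →* AddMonoid.End X} {F : ℕ → AddSubgroup X} {M : ℕ} {g : P}
    {s : ℕ} {T : AddMonoid.End (Wq τ F M)} (hT : Sym τ ρ F M g s T) (m : ℕ) :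
    ∀ z : Wz τ F M, ∃ z' : Wz τ F M,
      (T ^ m) (QuotientAddGroup.mk z) = QuotientAddGroup.mk z' ∧
      ∀ i, ((ρ g - 1) ^ m) ((z : ℕ → X) (i + m * s)) - (z' : ℕ → X) i ∈ F i := by
  induction m with
  | zero =>
    intro z
    refine ⟨z, rfl, fun i => ?_⟩
    rw [pow_zero, Nat.zero_mul, Nat.add_zero]
    have e : (1 : AddMonoid.End X) ((z : ℕ → X) i) - (z : ℕ → X) i = 0 := sub_self _
    rw [e]
    exact (F i).zero_mem
  | succ m ih =>
    intro z
    obtain ⟨z1, h1, h1'⟩ := ih z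
    obtain ⟨z2, h2, h2'⟩ := hT.2.2 z1
    refine ⟨z2, ?_, fun i => ?_⟩
    · rw [pow_succ', mulA, h1, h2]
    · have ha := h1' (i + s)
      have hb := hT.2.1 i _ ha
      have hc := h2' i
      have e : i + (m + 1) * s = i + s + m * s := by ring
      rw [pow_succ', mulA, e]
      have e2 : (ρ g - 1) (((ρ g - 1) ^ m) ((z : ℕ → X) (i + s + m * s))) - (z2 : ℕ → X) i =
          (ρ g (((ρ g - 1) ^ m) ((z : ℕ → X) (i + s + m * s)) - (z1 : ℕ → X) (i + s)) -
            (((ρ g - 1) ^ m) ((z : ℕ → X) (i + s + m * s)) - (z1 : ℕ → X) (i + s))) +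
          (ρ g ((z1 : ℕ → X) (i + s)) - (z1 : ℕ → X) (i + s) - (z2 : ℕ → X) i) := by
        rw [subA, map_sub (ρ g)]
        abel
      rw [e2]
      exact (F i).add_mem hb hc

theorem low {p : ℕ} {φ : P →* P} {τ : X →+ X} {ρ : P →* AddMonoid.End X}
    {F : ℕ → AddSubgroup X} {M : ℕ} (h : Cyc p φ τ ρ F M) (g : P) (m : ℕ) :
    ∀ (n : ℕ) (x : X), x ∈ F n → ((ρ g - 1) ^ m) x ∈ F (n - m) := by
  induction m with
  | zero =>
    intro n x hx
    simpa using hx
  | succ m ih =>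
    intro n x hx
    have h1 := ih n x hx
    rw [pow_succ', mulA, subA]
    rcases Nat.eq_zero_or_pos (n - m) with h0 | h0
    · rw [h0] at h1
      have e : n - (m + 1) = 0 := by omega
      rw [e]
      exact (F 0).sub_mem (h.stb g 0 _ h1) h1
    · have e : n - m = (n - (m + 1)) + 1 := by omega
      rw [e] at h1
      exact h.act g _ _ h1

theorem mono0 {p : ℕ} {φ : P →* P} {τ : X →+ X} {ρ : P →* AddMonoid.End X}
    {F : ℕ → AddSubgroup X} {M : ℕ} (h : Cyc p φ τ ρ F M) (i : ℕ) : F 0 ≤ F i := by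
  induction i with
  | zero => exact le_refl _
  | succ i ih => exact ih.trans (h.mono i)

/-- **NLT.** -/
theorem nlt : NltStmt := by
  intro P _ p φ X _ τ ρ F M h g s T hg hT
  have hfin : Finite (Submonoid.powers g) := by
    have h1 : (Submonoid.powers g : Set P).Finite := by
      rw [finite_powers]
      exact hg
    exact h1.to_subtype
  obtain ⟨u, hu⟩ := Finite.exists_infinite_fiber
    (fun n : ℕ => (⟨g ^ (p ^ n), p ^ n, rfl⟩ : Submonoid.powers g))
  rw [Set.infinite_coe_iff] at hu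
  obtain ⟨n0, hn0⟩ := hu.nonempty
  have hp1 : 1 < p := h.prm.one_lt
  have key : ∀ (i : ℕ) (x : X), x ∈ F i → ((ρ g - 1) ^ (p ^ n0)) x ∈ F 0 := by
    intro i x hx
    obtain ⟨n, hn, hin⟩ := hu.exists_gt i
    have e1 : g ^ (p ^ n) = g ^ (p ^ n0) := by
      have a1 : (⟨g ^ (p ^ n), p ^ n, rfl⟩ : Submonoid.powers g) = u := hn
      have a2 : (⟨g ^ (p ^ n0), p ^ n0, rfl⟩ : Submonoid.powers g) = u := hn0
      exact congrArg Subtype.val (a1.trans a2.symm)
    have e2 : (ρ g - 1) ^ (p ^ n0) = (ρ g - 1) ^ (p ^ n) := by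
      rw [pow_sub p h.prm h.exp, pow_sub p h.prm h.exp, e1]
    rw [e2]
    have h2 := low h g (p ^ n) i x hx
    have h3 : i - p ^ n = 0 := by
      have := Nat.lt_pow_self hp1 (n := n)
      omega
    rw [h3] at h2
    exact h2
  refine ⟨p ^ n0, ?_⟩
  ext w
  obtain ⟨z, rfl⟩ := QuotientAddGroup.mk_surjective w
  obtain ⟨z', h1, h2⟩ := iter hT (p ^ n0) z
  rw [h1]
  have h3 : z' ∈ W0 τ F M := by
    intro i
    have h4 := h2 i
    have h5 := mono0 h i (key _ _ (z.2 (i + p ^ n0 * s)).1)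
    have h6 := (F i).sub_mem h5 h4
    rwa [sub_sub_cancel] at h6
  exact (QuotientAddGroup.eq_zero_iff z').2 h3

end Pool.Agent.ZGO.H67
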